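import Mathlib

set_option autoImplicit false

namespace Pool.Agent.Results.MP_5ce401_an.NoConstant

open Filter Topology Set Real

/-- `x` solves `x'(t) + a(t) x(h(t)) = 0` for `t ≥ t₀`, with a continuous bounded initial
function `x` restricted to `(-∞, t₀]`. -/
def Sol (a h : ℝ → ℝ) (t₀ : ℝ) (x : ℝ → ℝ) : Prop :=
  Continuous x ∧ (∃ B, ∀ t ≤ t₀, |x t| ≤ B) ∧
    ∀ t, t₀ ≤ t → HasDerivWithinAt x (-(a t * x (h t))) (Ici t₀) t

/-- asymptotic stability. -/
def AS (a h : ℝ → ℝ) (t₀ : ℝ) : Prop :=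
  (∀ ε > 0, ∃ δ > 0, ∀ x, Sol a h t₀ x → (∀ t ≤ t₀, |x t| ≤ δ) → ∀ t, t₀ ≤ t → |x t| < ε) ∧
    ∀ x, Sol a h t₀ x → Tendsto x atTop (𝓝 0)

noncomputable def a1 (c t : ℝ) : ℝ := -cos t * exp (sin t - sin (t + c))

noncomputable def a0 (c t : ℝ) : ℝ := -cos t * (1 + (sin t - sin (t + c)))

noncomputable def F (c t : ℝ) : ℝ := -sin t + cos (2 * t) / 4 - cos (2 * t + c) / 4 + t * sin c / 2

lemma F_deriv (c t : ℝ) : HasDerivAt (F c) (a0 c t) t := by
  have h2 : HasDerivAt (fun t : ℝ => 2 * t) 2 t := by simpa using (hasDerivAt_id t).const_mul 2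
  refine (((((hasDerivAt_sin t).neg).add (h2.cos.div_const 4)).sub
    ((h2.add_const c).cos.div_const 4)).add
      (((hasDerivAt_id' t).mul_const (sin c)).div_const 2)).congr_deriv ?_
  unfold a0
  rw [sin_add, sin_add, sin_two_mul, cos_two_mul]
  ring

lemma sin_lip (s t : ℝ) : |sin s - sin t| ≤ |s - t| := abs_sin_sub_sin_le s t

lemma a_close {c : ℝ} (h0 : 0 < c) (h1 : c ≤ 1) (t : ℝ) : |a1 c t - a0 c t| ≤ c ^ 2 := by
  have h2 : |sin t - sin (t + c)| ≤ c := by
    have := sin_lip t (t + c)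
    rwa [sub_add_cancel_left, abs_neg, abs_of_pos h0] at this
  have h3 := abs_exp_sub_one_sub_id_le (h2.trans h1)
  have h4 : (sin t - sin (t + c)) ^ 2 ≤ c ^ 2 := by
    rw [sq_le_sq, abs_of_pos h0]; exact h2
  have e : a1 c t - a0 c t = -cos t * (exp (sin t - sin (t + c)) - 1 - (sin t - sin (t + c))) := by
    unfold a1 a0; ring
  rw [e, abs_mul, abs_neg]
  exact (mul_le_of_le_one_left (abs_nonneg _) (abs_cos_le_one t)).trans (h3.trans h4)

theorem result (M : ℝ) (hM : 0 < M) : ∃ (t₀ : ℝ) (a h : ℝ → ℝ) (A τ m M' : ℝ),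
    Continuous a ∧ Continuous h ∧ Tendsto h atTop atTop ∧
    (∀ t, |a t| ≤ A ∧ 0 ≤ t - h t ∧ t - h t ≤ τ) ∧ 0 < m ∧ M' < M ∧
    (∀ t, m ≤ ∫ s in h t..t, a s ∧ ∫ s in h t..t, a s ≤ M') ∧ ¬ AS a h t₀ := by
  obtain ⟨c, h0, h1, h2⟩ : ∃ c : ℝ, 0 < c ∧ c ≤ 1 / 10 ∧ 6 * c < M :=
    ⟨min (1 / 10) (M / 7), by positivity, min_le_left _ _,
      by have := min_le_right (1 / 10) (M / 7); linarith⟩
  have p1 := pi_gt_d2
  have p2 := pi_lt_d2
  have c1 : Continuous (a1 c) := by unfold a1; fun_prop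
  have c0 : Continuous (a0 c) := by unfold a0; fun_prop
  refine ⟨0, a1 c, fun t => t + c - 2 * π, exp 2, 2 * π, c / 2, 6 * c, c1, by fun_prop,
    tendsto_atTop_add_const_right _ _ (tendsto_atTop_add_const_right _ _ tendsto_id),
    fun t => ⟨?_, by linarith, by linarith⟩, by linarith, h2, fun t => ?_, fun h => ?_⟩
  · unfold a1
    rw [abs_mul, abs_neg, abs_of_pos (exp_pos _)]
    refine (mul_le_of_le_one_left (exp_pos _).le (abs_cos_le_one t)).trans (exp_le_exp.2 ?_)
    have := sin_le_one t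
    have := neg_one_le_sin (t + c)
    linarith
  · have e1 : ∫ s in (t + c - 2 * π)..t, a0 c s = F c t - F c (t + c - 2 * π) :=
      intervalIntegral.integral_eq_sub_of_hasDerivAt (fun s _ => F_deriv c s)
        (c0.intervalIntegrable _ _)
    have e2 := intervalIntegral.norm_integral_le_of_norm_le_const (a := t + c - 2 * π) (b := t)
      (f := fun s => a1 c s - a0 c s) (C := c ^ 2) fun s _ => a_close h0 (by linarith) s
    rw [intervalIntegral.integral_sub (c1.intervalIntegrable _ _) (c0.intervalIntegrable _ _), e1,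
      Real.norm_eq_abs, abs_of_pos (show 0 < t - (t + c - 2 * π) by linarith), abs_le] at e2
    have f1 : sin (t + c - 2 * π) = sin (t + c) := sin_sub_two_pi _
    have f2 : cos (2 * (t + c - 2 * π)) = cos (2 * t + 2 * c) := by
      rw [← cos_add_two_pi, ← cos_add_two_pi]; congr 1; ring
    have f3 : cos (2 * (t + c - 2 * π) + c) = cos (2 * t + 3 * c) := by
      rw [← cos_add_two_pi, ← cos_add_two_pi]; congr 1; ring
    unfold F at e2
    rw [f1, f2, f3] at e2
    have g1 := sin_lip (t + c) t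
    have g2 := abs_cos_sub_cos_le (2 * t + c) (2 * t)
    have g3 := abs_cos_sub_cos_le (2 * t + 3 * c) (2 * t + 2 * c)
    rw [add_sub_cancel_left, abs_of_pos h0, abs_le] at g1 g2
    rw [show 2 * t + 3 * c - (2 * t + 2 * c) = c by ring, abs_of_pos h0, abs_le] at g3
    have s1 := sin_gt_sub_cube h0
    have s2 := sin_lt h0
    have s3 : 99 / 100 * c ≤ sin c := by nlinarith [mul_pos h0 h0]
    have s4 : c ^ 2 * (t - (t + c - 2 * π)) ≤ 7 / 10 * c := by nlinarith [mul_pos h0 h0]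
    have s5 : 3 * c ≤ t * sin c / 2 - (t + c - 2 * π) * sin c / 2 := by nlinarith
    have s6 : t * sin c / 2 - (t + c - 2 * π) * sin c / 2 ≤ 16 / 5 * c := by nlinarith
    constructor <;> linarith
  · have hb : ∀ t, exp (-1) ≤ exp (sin t) := fun t => exp_le_exp.2 (neg_one_le_sin t)
    have := h.2 (fun t => exp (sin t)) ⟨by fun_prop, ⟨exp 1, fun t _ => by
      rw [abs_of_pos (exp_pos _)]; exact exp_le_exp.2 (sin_le_one t)⟩, fun t _ => by
        refine ((hasDerivAt_sin t).exp.congr_deriv ?_).hasDerivWithinAt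
        simp only [a1, sin_sub_two_pi]
        rw [mul_assoc, ← exp_add]
        simp [mul_comm]⟩
    have h3 := ge_of_tendsto' this hb
    exact absurd h3 (not_le.2 (exp_pos _))

end Pool.Agent.Results.MP_5ce401_an.NoConstant
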